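import Pool.Agent.Helper41.Cluster4.Goals

/-! Packet K of MP_c45da2_co (dimension four): the centres in Case II. -/

namespace Pool.Agent.Helper15.Cluster4

open Module Pool.Agent.Helper65.Delone Pool.Agent.Helper41.Cluster4
open scoped RealInnerProductSpace

set_option linter.unusedSectionVars false

section

variable {E : Type*} [NormedAddCommGroup E] [InnerProductSpace ℝ E]

theorem zero_of_orth {P : Submodule ℝ E} {v : E} (h1 : v ∈ P) (h2 : v ∈ Pᗮ) : v = 0 := by
  have := Submodule.inner_right_of_mem_orthogonal h1 h2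
  exact inner_self_eq_zero.mp this

theorem sub_mem_swap {P : Submodule ℝ E} {a b : E} (h : a - b ∈ P) : b - a ∈ P := by
  have := P.neg_mem h
  rwa [neg_sub] at this

variable {X : Set E} {L W : ℝ} {Q : E → Submodule ℝ E}

/-- partner relation -/
def Partner (X : Set E) (W : ℝ) (Q : E → Submodule ℝ E) (x y : E) : Prop :=
  y ∈ X ∧ ‖y - x‖ = W ∧ y - x ∉ Q x

theorem stepI' (h4 : finrank ℝ E = 4) (hI : StepI4 E) (F : Fr X L W Q) (hL : 15 / 2 * W ≤ L)
    {x z : E} (hx : x ∈ X)
    (hz : z ∈ X) (hn : ‖z - x‖ ≤ 2 * W) (hm : z - x ∉ Q x) : Q z = (Q x)ᗮ := by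
  have hW := F.W_pos
  exact hI h4 X L W Q F x hx z hz (by linarith) (by linarith) hm

variable [FiniteDimensional ℝ E]

/-- (1) the centre is not `x` -/
theorem centre_ne (h4 : finrank ℝ E = 4) (hI : StepI4 E) (F : Fr X L W Q) (hL : 15 / 2 * W ≤ L)
    {x y c : E} (hx : x ∈ X)
    (hy : Partner X W Q x y) (hcy : c - y ∈ Q y) : c ≠ x := by
  intro hcx'
  subst hcx'
  have hW := F.W_pos
  obtain ⟨hyX, hyn, hyQ⟩ := hy
  have hxy := stepI' h4 hI F hL hx hyX (by linarith) hyQ
  obtain ⟨z, hzX, hzn, hzQ⟩ := F.partner y hyX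
  have hyz := stepI' h4 hI F hL hyX hzX (by linarith) hzQ
  obtain ⟨h', hh', p', hp', he'⟩ := Submodule.exists_add_mem_mem_orthogonal (K := Q y) (z - y)
  have hp0' : p' ≠ 0 := by
    rintro rfl
    rw [add_zero] at he'
    exact hzQ (he' ▸ hh')
  set p : E := y - c with hp
  have hpQ : p ∈ Q y := sub_mem_swap hcy
  have hgQ : h' + p ∈ Q y := (Q y).add_mem hh' hpQ
  have hzc : z - c = (h' + p) + p' := by
    have : z - c = (z - y) + (y - c) := by abel
    rw [this, he', hp]
    abel
  have hnz : ‖z - c‖ ≤ 2 * W := by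
    have : z - c = (z - y) + (y - c) := by abel
    rw [this]
    refine (norm_add_le _ _).trans ?_
    rw [hzn, hyn]
    linarith
  have hp'x : p' ∈ Q c := by
    rw [hxy, Submodule.orthogonal_orthogonal] at hp'
    exact hp'
  have hg0 : h' + p = 0 := by
    by_cases hzx : z - c ∈ Q c
    · have e1 : h' + p ∈ Q c := by
        have : h' + p = (z - c) - p' := by rw [hzc]; abel
        rw [this]
        exact (Q c).sub_mem hzx hp'x
      exact zero_of_orth e1 (hxy ▸ hgQ)
    · have hxz := stepI' h4 hI F hL hx hzX hnz hzx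
      exfalso
      apply hp0'
      have e1 : p' ∈ Q y := by
        rw [hxy, ← hxz, hyz]
        exact hp'
      exact zero_of_orth e1 hp'
  have hz2 : z - y = p' - p := by
    have : h' = -p := eq_neg_of_add_eq_zero_left hg0
    rw [he', this]
    abel
  have hin : ⟪p, p'⟫ = 0 := Submodule.inner_right_of_mem_orthogonal hpQ hp'
  have hsq : ‖z - y‖ ^ 2 = ‖p'‖ ^ 2 + ‖p‖ ^ 2 := by
    rw [hz2, norm_sub_sq_real, real_inner_comm, hin]
    ring
  have hpp : 0 < ‖p'‖ := norm_pos_iff.mpr hp0'
  rw [hzn, show ‖p‖ = W from hyn] at hsq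
  nlinarith [hpp, hsq]

/-- (2) independence of the partner -/
theorem centre_unique (h4 : finrank ℝ E = 4) (hI : StepI4 E) (hC : LemC4 E) (F : Fr X L W Q)
    (hL : 15 / 2 * W ≤ L)
    {x y z c c' : E} (hx : x ∈ X) (hy : Partner X W Q x y) (hz : Partner X W Q x z)
    (hcx : c - x ∈ Q x) (hcy : c - y ∈ Q y) (hcx' : c' - x ∈ Q x) (hcz' : c' - z ∈ Q z) :
    c = c' := by
  have hW := F.W_pos
  obtain ⟨hyX, hyn, hyQ⟩ := hy
  obtain ⟨hzX, hzn, hzQ⟩ := hz
  have hxy := stepI' h4 hI F hL hx hyX (by linarith) hyQ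
  have hxz := stepI' h4 hI F hL hx hzX (by linarith) hzQ
  have hzc : z ≠ c := by
    rintro rfl
    exact hzQ hcx
  have hzy : ‖z - y‖ ≤ 2 * W := by
    have : z - y = (z - x) - (y - x) := by abel
    rw [this]
    refine (norm_sub_le _ _).trans ?_
    rw [hzn, hyn]
    linarith
  rcases hC h4 X L W Q F x hx y hyX z hzX c hxy hcx hcy hzc (by linarith)
    (by linarith) (by linarith) (by linarith) with ⟨h1, -⟩ | ⟨h1, -⟩
  · exfalso
    apply hzQ
    have : z - x = (z - c) + (c - x) := by abel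
    rw [this]
    exact (Q x).add_mem h1 hcx
  · have h2 : c - z ∈ Q z := by
      rw [hxz, ← hxy]
      exact sub_mem_swap h1
    have h3 : c - c' ∈ Q x := by
      have : c - c' = (c - x) - (c' - x) := by abel
      rw [this]
      exact (Q x).sub_mem hcx hcx'
    have h4 : c - c' ∈ Q z := by
      have : c - c' = (c - z) - (c' - z) := by abel
      rw [this]
      exact (Q z).sub_mem h2 hcz'
    exact sub_eq_zero.mp (zero_of_orth h3 (hxz ▸ h4))

/-- existence of a centre for a given partner -/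
theorem centre_exists (h4 : finrank ℝ E = 4) (hI : StepI4 E) (F : Fr X L W Q)
    (hL : 15 / 2 * W ≤ L)
    {x y : E} (hx : x ∈ X) (hy : Partner X W Q x y) :
    Q y = (Q x)ᗮ ∧ ∃ c : E, c - x ∈ Q x ∧ c - y ∈ Q y := by
  have hW := F.W_pos
  obtain ⟨hyX, hyn, hyQ⟩ := hy
  have hxy := stepI' h4 hI F hL hx hyX (by linarith) hyQ
  obtain ⟨h, hh, p, hp, he⟩ := Submodule.exists_add_mem_mem_orthogonal (K := Q x) (y - x)
  refine ⟨hxy, x + h, by rwa [add_sub_cancel_left], ?_⟩
  have : x + h - y = -p := by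
    have : x + h - y = h - (y - x) := by abel
    rw [this, he]
    abel
  rw [this, hxy]
  exact (Q x)ᗮ.neg_mem hp

theorem centers4 (hT : Transp4 E) (hI : StepI4 E) (hC : LemC4 E) : Centers4 E := by
  classical
  intro h4 X L W Q F hL
  have hW := F.W_pos
  have hpar : ∀ x ∈ X, ∃ y, Partner X W Q x y := by
    intro x hx
    obtain ⟨y, hy, hy1, hy2⟩ := F.partner x hx
    exact ⟨y, hy, hy1, hy2⟩
  have hex : ∀ x : E, ∃ c : E, x ∈ X → ∃ y, Partner X W Q x y ∧ c - x ∈ Q x ∧ c - y ∈ Q y := by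
    intro x
    by_cases hx : x ∈ X
    · obtain ⟨y, hy⟩ := hpar x hx
      obtain ⟨-, c, h1, h2⟩ := centre_exists h4 hI F hL hx hy
      exact ⟨c, fun _ => ⟨y, hy, h1, h2⟩⟩
    · exact ⟨0, fun h => absurd h hx⟩
  choose c hc using hex
  have hc1 : ∀ x ∈ X, c x - x ∈ Q x := by
    intro x hx
    obtain ⟨y, -, h, -⟩ := hc x hx
    exact h
  have hc2 : ∀ x ∈ X, ∀ y, Partner X W Q x y → c x - y ∈ Q y := by
    intro x hx y hy
    obtain ⟨-, c', h1, h2⟩ := centre_exists h4 hI F hL hx hy
    obtain ⟨z, hz, h3, h4'⟩ := hc x hx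
    have : c' = c x := centre_unique h4 hI hC F hL hx hy hz h1 h2 h3 h4'
    rw [← this]
    exact h2
  have hc3 : ∀ x ∈ X, ∀ y, Partner X W Q x y → c x ≠ x := by
    intro x hx y hy
    exact centre_ne h4 hI F hL hx hy (hc2 x hx y hy)
  have horth : ∀ x ∈ X, ∀ y, Partner X W Q x y → Q y = (Q x)ᗮ := by
    intro x hx y hy
    exact (centre_exists h4 hI F hL hx hy).1
  have horth' : ∀ x ∈ X, ∀ y, Partner X W Q x y → ∀ u ∈ Q x, ∀ w ∈ Q y, ⟪u, w⟫ = 0 := by
    intro x hx y hy u hu w hw
    rw [horth x hx y hy] at hw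
    exact Submodule.inner_right_of_mem_orthogonal hu hw
  have hsymm : ∀ x ∈ X, ∀ y, Partner X W Q x y → Partner X W Q y x := by
    intro x hx y hy
    refine ⟨hx, ?_, ?_⟩
    · rw [norm_sub_rev]
      exact hy.2.1
    · intro hxy
      apply hc3 x hx y hy
      have h1 : c x - x ∈ Q y := by
        have : c x - x = (c x - y) - (x - y) := by abel
        rw [this]
        exact (Q y).sub_mem (hc2 x hx y hy) hxy
      rw [horth x hx y hy] at h1
      exact sub_eq_zero.mp (zero_of_orth (hc1 x hx) h1)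
  have hceq : ∀ x ∈ X, ∀ y, Partner X W Q x y → c y = c x := by
    intro x hx y hy
    have hyX : y ∈ X := hy.1
    have h1 : c y - c x ∈ Q x := by
      have : c y - c x = (c y - x) - (c x - x) := by abel
      rw [this]
      exact (Q x).sub_mem (hc2 y hyX x (hsymm x hx y hy)) (hc1 x hx)
    have h2 : c y - c x ∈ Q y := by
      have : c y - c x = (c y - y) - (c x - y) := by abel
      rw [this]
      exact (Q y).sub_mem (hc1 y hyX) (hc2 x hx y hy)
    rw [horth x hx y hy] at h2
    exact sub_eq_zero.mp (zero_of_orth h1 h2)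
  have htr : ∀ x ∈ X, ∀ x' ∈ X, ∀ B : E ≃ₗᵢ[ℝ] E, Iso X L x x' B → ∀ z ∈ X, ‖z - x‖ ≤ L - W →
      c (x' + B (z - x)) = x' + B (c z - x) := by
    intro x hx x' hx' B hB z hz hzn
    obtain ⟨hz', hzt⟩ := hT X L W Q F x hx x' hx' B hB z hz (by linarith)
    obtain ⟨w, hw⟩ := hpar z hz
    have hwX : w ∈ X := hw.1
    have hwn : ‖w - x‖ ≤ L := by
      have : w - x = (w - z) + (z - x) := by abel
      rw [this]
      refine (norm_add_le _ _).trans ?_
      rw [hw.2.1]
      linarith
    have hw'X : x' + B (w - x) ∈ X := by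
      refine (hB (w - x) hwn).mp ?_
      rwa [add_sub_cancel]
    have hdiff : x' + B (w - x) - (x' + B (z - x)) = B (w - z) := by
      simp only [map_sub]
      abel
    have hw' : Partner X W Q (x' + B (z - x)) (x' + B (w - x)) := by
      refine ⟨hw'X, ?_, ?_⟩
      · rw [hdiff, LinearIsometryEquiv.norm_map]
        exact hw.2.1
      · rw [hdiff]
        intro h
        exact hw.2.2 ((hzt _).mpr h)
    set z' : E := x' + B (z - x) with hz'def
    set w' : E := x' + B (w - x) with hw'def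
    have ho := horth' z' hz' w' hw'
    -- both vectors have their `z'` parts in `Q z'`
    have h1 : x' + B (c z - x) - z' = B (c z - z) := by
      rw [hz'def]
      simp only [map_sub]
      abel
    have h2 : x' + B (c z - x) - z' ∈ Q z' := by
      rw [h1]
      exact (hzt _).mp (hc1 z hz)
    have h3 : c z' - (x' + B (c z - x)) ∈ Q z' := by
      have : c z' - (x' + B (c z - x)) = (c z' - z') - (x' + B (c z - x) - z') := by abel
      rw [this]
      exact (Q z').sub_mem (hc1 z' hz') h2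
    obtain ⟨g, hg⟩ := B.surjective (c z' - (x' + B (c z - x)))
    have hgQ : g ∈ Q z := by
      rw [hzt, hg]
      exact h3
    have h4 : ⟪B g, c z' - w'⟫ = 0 := by
      refine ho _ ?_ _ (hc2 z' hz' w' hw')
      rw [hg]
      exact h3
    have h5 : ⟪B g, B (c z - w)⟫ = 0 := by
      rw [LinearIsometryEquiv.inner_map_map]
      exact horth' z hz w hw _ hgQ _ (hc2 z hz w hw)
    have h6 : B (c z - w) = x' + B (c z - x) - w' := by
      rw [hw'def]
      simp only [map_sub]
      abel
    have h7 : ⟪c z' - (x' + B (c z - x)), c z' - (x' + B (c z - x))⟫ = 0 := by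
      have : c z' - (x' + B (c z - x)) = (c z' - w') - (x' + B (c z - x) - w') := by abel
      rw [← hg]
      nth_rewrite 2 [hg]
      rw [this, inner_sub_right, h4, ← h6, h5, sub_zero]
    exact sub_eq_zero.mp (inner_self_eq_zero.mp h7)
  have hnorm : ∀ x ∈ X, ‖c x - x‖ ^ 2 = W ^ 2 / 2 := by
    intro x hx
    obtain ⟨y, hy⟩ := hpar x hx
    have hyX : y ∈ X := hy.1
    obtain ⟨B, hB⟩ := F.cong x hx y hyX
    have h0 : ‖x - x‖ ≤ L - W := by
      rw [sub_self, norm_zero]
      linarith
    have h1 := htr x hx y hyX B hB x hx h0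
    rw [sub_self, map_zero, add_zero] at h1
    have h2 : c y - y = B (c x - x) := by
      rw [h1]
      abel
    have h3 : ‖c y - y‖ = ‖c x - x‖ := by
      rw [h2, LinearIsometryEquiv.norm_map]
    have h4 : y - x = (c x - x) - (c y - y) := by
      rw [hceq x hx y hy]
      abel
    have h5 : ⟪c x - x, c y - y⟫ = 0 := horth' x hx y hy _ (hc1 x hx) _ (hc1 y hyX)
    have h6 : ‖y - x‖ ^ 2 = ‖c x - x‖ ^ 2 + ‖c y - y‖ ^ 2 := by
      rw [h4, norm_sub_sq_real, h5]
      ring
    rw [hy.2.1, h3] at h6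
    linarith
  refine ⟨c, hc1, hnorm, ?_, ?_, htr⟩
  · intro x hx y hy hn hm
    have hp : Partner X W Q x y := ⟨hy, hn, hm⟩
    exact ⟨hceq x hx y hp, horth x hx y hp⟩
  · intro x hx z hz hcz
    obtain ⟨y, hy⟩ := hpar x hx
    have hyX : y ∈ X := hy.1
    have hb : ∀ w ∈ X, ‖c w - w‖ ≤ W := by
      intro w hw
      have h1 := hnorm w hw
      nlinarith [norm_nonneg (c w - w)]
    have hbpos : ∀ w ∈ X, 0 < ‖c w - w‖ := by
      intro w hw
      have h1 := hnorm w hw
      have h2 : 0 < ‖c w - w‖ ^ 2 := by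
        rw [h1]; positivity
      by_contra hcon
      have h3 : ‖c w - w‖ = 0 := le_antisymm (not_lt.mp hcon) (norm_nonneg _)
      rw [h3] at h2
      norm_num at h2
    have hzc : z ≠ c x := by
      intro h
      have := hbpos z hz
      rw [hcz, ← h, sub_self, norm_zero] at this
      exact lt_irrefl _ this
    have hzx : ‖z - x‖ ≤ 2 * W := by
      have : z - x = (c x - x) - (c z - z) := by rw [hcz]; abel
      rw [this]
      refine (norm_sub_le _ _).trans ?_
      have := hb x hx
      have := hb z hz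
      linarith
    have hzy : ‖z - y‖ ≤ 2 * W := by
      have : z - y = (c y - y) - (c z - z) := by rw [hcz, hceq x hx y hy]; abel
      rw [this]
      refine (norm_sub_le _ _).trans ?_
      have := hb y hyX
      have := hb z hz
      linarith
    rcases hC h4 X L W Q F x hx y hyX z hz (c x) (horth x hx y hy) (hc1 x hx) (hc2 x hx y hy) hzc
      (by linarith) (by linarith) (by linarith) (by linarith) with ⟨-, h⟩ | ⟨-, h⟩
    · exact Or.inl h
    · right
      rw [h]
      exact horth x hx y hy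

end

end Pool.Agent.Helper15.Cluster4
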